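import Pool.Agent.H56.MG.Def
set_option autoImplicit false

/-!
# H56/MG/Bas: basic facts (all, and, change of the base point)
-/

namespace Pool.Agent.H56.MG

open Set Topology TopologicalSpace Pool.Agent.H93.EO

variable {X : Type} [MeasurableSpace X] {F : X → X → Prop}

theorem PG.all (G : PG X F) (x : X) {P : X → Prop} (h : ∀ y, F x y → P y) : G.gen x P :=
  G.mono x _ P (fun y hy _ => h y hy) (G.bp x ∅ MeasurableSet.empty)

theorem PG.and (G : PG X F) {x : X} {P Q : X → Prop} (h : G.gen x P) (h' : G.gen x Q) :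
    G.gen x fun y => P y ∧ Q y := by
  have key : G.gen x fun y => ∀ n : ℕ, (if n = 0 then P y else Q y) := by
    refine G.nat x (fun n y => if n = 0 then P y else Q y) fun n => ?_
    by_cases hn : n = 0
    · exact G.mono x P _ (fun y _ hy => by simpa only [hn, if_true] using hy) h
    · exact G.mono x Q _ (fun y _ hy => by simpa only [if_neg hn] using hy) h'
  refine G.mono x _ _ (fun y _ hy => ⟨?_, ?_⟩) key
  · exact hy 0
  · exact hy 1

theorem z_change (hF : Equivalence F) (G : PG X F) {x x' w : X} {n m : ℕ} (h : F x x') (hw : w ∈ Z G n m x) :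
    ∃ n', w ∈ Z G n' m x' ∧ Z G n' m x' ⊆ Z G n m x := by
  obtain ⟨hw1, hw2⟩ := hw
  have h1 : ¬ G.gen x' fun y => ¬ (y ∈ G.H n x ∧ w ∈ G.H m y) :=
    fun hc => hw2 (G.inv x' x _ (hF.symm h) hc)
  have hmeas : MeasurableSet {y : X | y ∈ G.H n x} :=
    measurable_prodMk_left (x := x) (G.mH n)
  have hbp := G.bp x' {y : X | y ∈ G.H n x} hmeas
  obtain ⟨n', hn1, hn2⟩ : ∃ n', (G.gen x' fun z => z ∈ G.H n' x' → z ∈ G.H n x) ∧
      ¬ G.gen x' fun y => ¬ (y ∈ G.H n' x' ∧ w ∈ G.H m y) := by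
    by_contra hcon
    push Not at hcon
    have hall : ∀ n', G.gen x' fun y => (G.gen x' fun z => z ∈ G.H n' x' → z ∈ G.H n x) →
        ¬ (y ∈ G.H n' x' ∧ w ∈ G.H m y) := by
      intro n'
      by_cases hg : G.gen x' fun z => z ∈ G.H n' x' → z ∈ G.H n x
      · refine G.mono x' _ _ (fun y _ hy _ => ?_) (hcon n' hg)
        rintro ⟨ha, hb⟩
        exact hy ha hb
      · exact G.all x' fun y _ hg' => absurd hg' hg
    refine h1 (G.mono x' _ _ (fun y _ hy => ?_) (G.and hbp (G.nat x' _ hall)))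
    rintro ⟨ha, hb⟩
    obtain ⟨n', hn1, hn2⟩ := hy.1 ha
    exact hy.2 n' hn2 ⟨hn1, hb⟩
  refine ⟨n', ⟨hF.trans (hF.symm h) hw1, hn2⟩, ?_⟩
  rintro v ⟨hv1, hv2⟩
  refine ⟨hF.trans h hv1, fun hc => hv2 ?_⟩
  refine G.mono x' _ _ (fun y _ hy => ?_) (G.and (G.inv x x' _ h hc) hn1)
  rintro ⟨ha, hb⟩
  exact hy.1 ⟨hy.2 ha, hb⟩

theorem bl_change (hF : Equivalence F) (G : PG X F) {x x' w : X} {l : List (ℕ × ℕ)} (h : F x x')
    (hw : w ∈ Bl G l x) : ∃ l', w ∈ Bl G l' x' ∧ Bl G l' x' ⊆ Bl G l x := by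
  induction l with
  | nil =>
    refine ⟨[], ⟨hF.trans (hF.symm h) hw.1, by simp⟩, ?_⟩
    rintro v ⟨hv, -⟩
    exact ⟨hF.trans h hv, by simp⟩
  | cons p l ih =>
    obtain ⟨hw1, hw2⟩ := hw
    obtain ⟨n', hn1, hn2⟩ := z_change hF G h (hw2 p (by simp))
    obtain ⟨l', hl1, hl2⟩ := ih ⟨hw1, fun q hq => hw2 q (List.mem_cons_of_mem p hq)⟩
    refine ⟨(n', p.2) :: l', ⟨hl1.1, ?_⟩, ?_⟩
    · intro q hq
      rcases List.mem_cons.1 hq with rfl | hq
      · exact hn1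
      · exact hl1.2 q hq
    · rintro v ⟨hv1, hv2⟩
      have hvl : v ∈ Bl G l x := hl2 ⟨hv1, fun q hq => hv2 q (List.mem_cons_of_mem _ hq)⟩
      refine ⟨hvl.1, ?_⟩
      intro q hq
      rcases List.mem_cons.1 hq with rfl | hq
      · exact hn2 (hv2 (n', q.2) (by simp))
      · exact hvl.2 q hq

end Pool.Agent.H56.MG
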