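import Pool.Agent.H56.MG.Def
set_option autoImplicit false

/-!
# H56/MG/Bp: Borel sets contain basic sets modulo the ideal
-/

namespace Pool.Agent.H56.MG

open Set Topology TopologicalSpace Pool.Agent.H93.EO

variable {X : Type} [MeasurableSpace X] {F : X → X → Prop}

private theorem bpAll (G : PG X F) (x : X) {P : X → Prop} (h : ∀ y, F x y → P y) : G.gen x P :=
  G.mono x _ _ (fun y hy _ => h y hy) (G.bp x ∅ MeasurableSet.empty)

private theorem bpAnd (G : PG X F) {x : X} {P Q : X → Prop} (h : G.gen x P) (h' : G.gen x Q) :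
    G.gen x fun y => P y ∧ Q y := by
  refine G.mono x _ _ (fun y _ hy => ?_) (G.nat x (fun n y => if n = 0 then P y else Q y) ?_)
  · refine ⟨?_, ?_⟩
    · have := hy 0
      simpa using this
    · have := hy 1
      simpa using this
  · intro n
    by_cases hn : n = 0
    · simpa [hn] using h
    · simpa [hn] using h'

/-- the parameters of the points `y` whose `m`-th basic set is contained in `A` modulo the ideal -/
private def bpR (G : PG X F) (A : Set X) (m : ℕ) : Set X :=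
  {y | G.gen y fun z => z ∈ G.H m y → z ∈ A}

private theorem bpR_meas [StandardBorelSpace X] (G : PG X F) {A : Set X} (hA : MeasurableSet A) (m : ℕ) :
    MeasurableSet (bpR G A m) := by
  refine G.cq X (fun y => y) measurable_id (fun y z => z ∈ G.H m y → z ∈ A) ?_
  have h : {q : X × X | q.2 ∈ G.H m q.1 → q.2 ∈ A} =
      {q : X × X | q.2 ∈ G.H m q.1}ᶜ ∪ Prod.snd ⁻¹' A := by
    ext q
    simp only [mem_setOf_eq, mem_union, mem_compl_iff, mem_preimage]
    tauto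
  rw [h]
  exact (G.mH m).compl.union (measurable_snd hA)

/-- the sets of pairs are good -/
private theorem bp_in [StandardBorelSpace X] (hE : Equivalence F) (G : PG X F) (x : X) {A : Set X}
    (hA : MeasurableSet A) (n m : ℕ) (h : G.gen x fun z => z ∈ G.H n x → z ∈ bpR G A m) :
    G.gen x fun z => z ∈ Z G n m x → z ∈ A := by
  have h1 : G.gen x fun y => G.gen x fun z => ¬ (y ∈ G.H n x ∧ z ∈ G.H m y ∧ z ∉ A) := by
    refine G.mono x _ _ (fun y hy hr => ?_) h
    by_cases hn : y ∈ G.H n x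
    · have h2 : G.gen x fun z => z ∈ G.H m y → z ∈ A := G.inv y x _ (hE.symm hy) (hr hn)
      refine G.mono x _ _ (fun z _ hz => ?_) h2
      rintro ⟨-, h3, h4⟩
      exact h4 (hz h3)
    · refine bpAll G x fun z _ => ?_
      rintro ⟨h3, -⟩
      exact hn h3
  have hR : MeasurableSet {p : X × X | ¬ (p.1 ∈ G.H n x ∧ p.2 ∈ G.H m p.1 ∧ p.2 ∉ A)} := by
    have e : {p : X × X | ¬ (p.1 ∈ G.H n x ∧ p.2 ∈ G.H m p.1 ∧ p.2 ∉ A)} =
        (((fun p : X × X => ((x, p.1) : X × X)) ⁻¹' {q : X × X | q.2 ∈ G.H n q.1}) ∩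
          ({p : X × X | p.2 ∈ G.H m p.1} ∩ (Prod.snd ⁻¹' A)ᶜ))ᶜ := by
      ext p
      simp only [mem_setOf_eq, mem_inter_iff, mem_compl_iff, mem_preimage]
    rw [e]
    exact (((measurable_const.prodMk measurable_fst) (G.mH n)).inter
      ((G.mH m).inter (measurable_snd hA).compl)).compl
  have h2 := G.ku x (fun y z => ¬ (y ∈ G.H n x ∧ z ∈ G.H m y ∧ z ∉ A)) hR h1
  refine G.mono x _ _ (fun z _ hz hZ => ?_) h2
  by_contra hzA
  refine hZ.2 (G.mono x _ _ (fun y _ hy => ?_) hz)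
  rintro ⟨h3, h4⟩
  exact hy ⟨h3, h4, hzA⟩

theorem bl_bp [StandardBorelSpace X] (hE : Equivalence F) (hF : MeasurableSet {p : X × X | F p.1 p.2})
    (G : PG X F) (x : X) (A : Set X) (hA : MeasurableSet A) :
    G.gen x fun w => w ∈ A → ∃ l, w ∈ Bl G l x ∧ G.gen x fun z => z ∈ Bl G l x → z ∈ A := by
  have _ := hF
  have h1 : G.gen x fun y => G.gen x fun w => w ∈ A → ∃ m, w ∈ G.H m y ∧ y ∈ bpR G A m :=
    bpAll G x fun y hy => G.inv y x _ (hE.symm hy) (G.bp y A hA)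
  have hR : MeasurableSet {p : X × X | p.2 ∈ A → ∃ m, p.2 ∈ G.H m p.1 ∧ p.1 ∈ bpR G A m} := by
    have e : {p : X × X | p.2 ∈ A → ∃ m, p.2 ∈ G.H m p.1 ∧ p.1 ∈ bpR G A m} =
        (Prod.snd ⁻¹' A)ᶜ ∪ ⋃ m, ({p : X × X | p.2 ∈ G.H m p.1} ∩ Prod.fst ⁻¹' (bpR G A m)) := by
      ext p
      simp only [mem_setOf_eq, mem_union, mem_compl_iff, mem_preimage, mem_iUnion, mem_inter_iff]
      tauto
    rw [e]
    exact (measurable_snd hA).compl.union
      (MeasurableSet.iUnion fun m => (G.mH m).inter (measurable_fst (bpR_meas G hA m)))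
  have h2 := G.ku x (fun y w => w ∈ A → ∃ m, w ∈ G.H m y ∧ y ∈ bpR G A m) hR h1
  refine G.mono x _ _ (fun w hw hg hwA => ?_) h2
  have hm : ∃ m, ¬ G.gen x fun y => ¬ (w ∈ G.H m y ∧ y ∈ bpR G A m) := by
    by_contra hcon
    have hcon' : ∀ m, G.gen x fun y => ¬ (w ∈ G.H m y ∧ y ∈ bpR G A m) :=
      fun m => by_contra fun h => hcon ⟨m, h⟩
    refine G.proper x (G.mono x _ _ (fun y _ hy => ?_) (bpAnd G hg (G.nat x _ hcon')))
    obtain ⟨m, h3⟩ := hy.1 hwA
    exact hy.2 m h3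
  obtain ⟨m, hm⟩ := hm
  have hn : ∃ n, (G.gen x fun z => z ∈ G.H n x → z ∈ bpR G A m) ∧
      ¬ G.gen x fun y => ¬ (y ∈ G.H n x ∧ w ∈ G.H m y) := by
    by_contra hcon
    refine hm ?_
    have h3 : G.gen x fun y => ∀ n, (G.gen x fun z => z ∈ G.H n x → z ∈ bpR G A m) →
        ¬ (y ∈ G.H n x ∧ w ∈ G.H m y) := by
      refine G.nat x _ fun n => ?_
      by_cases hc : G.gen x fun z => z ∈ G.H n x → z ∈ bpR G A m
      · have h4 : G.gen x fun y => ¬ (y ∈ G.H n x ∧ w ∈ G.H m y) := by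
          by_contra h5
          exact hcon ⟨n, hc, h5⟩
        exact G.mono x _ _ (fun y _ hy _ => hy) h4
      · exact bpAll G x fun y _ h5 => absurd h5 hc
    refine G.mono x _ _ (fun y _ hy => ?_) (bpAnd G h3 (G.bp x (bpR G A m) (bpR_meas G hA m)))
    rintro ⟨h5, h6⟩
    obtain ⟨n, h7, h8⟩ := hy.2 h6
    exact hy.1 n h8 ⟨h7, h5⟩
  obtain ⟨n, hn1, hn2⟩ := hn
  refine ⟨[(n, m)], ⟨hw, ?_⟩, ?_⟩
  · intro p hp
    rw [List.mem_singleton] at hp
    subst hp
    exact ⟨hw, hn2⟩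
  · refine G.mono x _ _ (fun z _ hz hzB => hz (hzB.2 (n, m) (List.mem_singleton.2 rfl)))
      (bp_in hE G x hA n m hn1)

end Pool.Agent.H56.MG
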