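import Pool.Agent.H93.EO.GenOf
set_option autoImplicit false

/-!
# H56/MG/Def: category structures of the points with an invariant ideal (definitions)
-/

namespace Pool.Agent.H56.MG

open Set Topology TopologicalSpace Pool.Agent.H93.EO

/-- category structures of the points: `H n x` are open sets of the topology of the point `x` on the class
of `x`, `gen x P`: comeager many points `y` of the class have `P y`; only `gen` is invariant -/
structure PG (X : Type) [MeasurableSpace X] (F : X → X → Prop) where
  /-- the base of the topology of the point `x` -/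
  H : ℕ → X → Set X
  /-- for generic points of the class of `x` -/
  gen : X → (X → Prop) → Prop
  sub : ∀ n x y, y ∈ H n x → F x y
  mono : ∀ x (P Q : X → Prop), (∀ y, F x y → P y → Q y) → gen x P → gen x Q
  nat : ∀ x (P : ℕ → X → Prop), (∀ n, gen x (P n)) → gen x fun y => ∀ n, P n y
  proper : ∀ x, ¬ gen x fun _ => False
  inv : ∀ x x' (P : X → Prop), F x x' → gen x P → gen x' P
  bp : ∀ x (A : Set X), MeasurableSet A →
    gen x fun y => y ∈ A → ∃ n, y ∈ H n x ∧ gen x fun z => z ∈ H n x → z ∈ A
  mH : ∀ n, MeasurableSet {p : X × X | p.2 ∈ H n p.1}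
  cq : ∀ (P : Type) [MeasurableSpace P] [StandardBorelSpace P] (π : P → X), Measurable π →
    ∀ A : P → X → Prop, MeasurableSet {q : P × X | A q.1 q.2} →
      MeasurableSet {p : P | gen (π p) (A p)}
  ku : ∀ x (R : X → X → Prop), MeasurableSet {p : X × X | R p.1 p.2} →
    (gen x fun y => gen x fun w => R y w) → gen x fun w => gen x fun y => R y w
  sel : ∀ B : Set (X × X), MeasurableSet B →
    ∃ s : X → X, Measurable s ∧ ∀ x, (¬ gen x fun y => (x, y) ∉ B) → (x, s x) ∈ B

variable {X : Type} [MeasurableSpace X] {F : X → X → Prop}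

/-- `w` lies in the `m`-th basic set of nonmeager many points `y` of the `n`-th basic set of `x` -/
def Z (G : PG X F) (n m : ℕ) (x : X) : Set X :=
  {w | F x w ∧ ¬ G.gen x fun y => ¬ (y ∈ G.H n x ∧ w ∈ G.H m y)}

/-- finite intersections -/
def Bl (G : PG X F) (l : List (ℕ × ℕ)) (x : X) : Set X := {w | F x w ∧ ∀ p ∈ l, w ∈ Z G p.1 p.2 x}

/-- enumeration of the lists -/
def dec (k : ℕ) : List (ℕ × ℕ) := Denumerable.ofNat (List (ℕ × ℕ)) k

/-- the points all of whose neighbourhoods are not meager -/
def Xs (G : PG X F) : Set X := {w | ∀ l, w ∈ Bl G l w → ¬ G.gen w fun y => y ∉ Bl G l w}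

/-- regular open sets -/
def Hs (G : PG X F) (k : ℕ) (x : X) : Set X :=
  {w | w ∈ Xs G ∧ ∃ l, w ∈ Bl G l x ∧ G.gen x fun z => z ∈ Bl G l x → z ∈ Bl G (dec k) x}

/-- topologies of the points on the classes, with the same Borel comeager sets -/
structure Dat (X : Type) [MeasurableSpace X] (F : Setoid X) where
  /-- the topology of the point `x` on the class of `x` -/
  σ : ∀ x : X, TopologicalSpace {y : X // F x y}
  t0 : ∀ x, @T0Space _ (σ x)
  baire : ∀ x, @BaireSpace _ (σ x)
  /-- the bases -/
  O : ℕ → X → Set X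
  /-- the dense sequences -/
  e : ℕ → X → X
  mF : MeasurableSet {p : X × X | F p.1 p.2}
  mO : ∀ n, MeasurableSet {p : X × X | p.2 ∈ O n p.1}
  base : ∀ x, @IsTopologicalBasis _ (σ x) (range fun n => {y | y.1 ∈ O n x})
  me : ∀ i, Measurable (e i)
  dense : ∀ x, @Dense _ (σ x) {y | ∃ i, y.1 = e i x}
  inv : ∀ x x' (A : Set X), F x x' → MeasurableSet A → {y : {y : X // F x y} | y.1 ∈ A} ∈ @residual _ (σ x) →
    {y : {y : X // F x' y} | y.1 ∈ A} ∈ @residual _ (σ x')

/-- the pairs of equivalent points -/
def P2 (F : Setoid X) : Type := {p : X × X // F p.1 p.2}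

instance (F : Setoid X) : MeasurableSpace (P2 F) := inferInstanceAs (MeasurableSpace {p : X × X // F p.1 p.2})

/-- same first coordinate -/
def E2 (F : Setoid X) : Setoid (P2 F) := Setoid.ker fun z => z.1.1

/-- the pair `(x, y)` -/
def mk2 {F : Setoid X} {x y : X} (h : F x y) : P2 F := ⟨(x, y), h⟩

end Pool.Agent.H56.MG
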