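import Pool.Agent.H56.MG.Def
set_option autoImplicit false

/-!
# H56/MG/Inv: the invariance for arbitrary sets
-/

namespace Pool.Agent.H56.MG

open Set Topology TopologicalSpace Pool.Agent.H93.EO

theorem dat_inv {X : Type} [MeasurableSpace X] {F : Setoid X} (D : Dat X F) (x x' : X) (P : X → Prop)
    (h : F x x') (hP : {y : {y : X // F x y} | P y.1} ∈ @residual _ (D.σ x)) :
    {y : {y : X // F x' y} | P y.1} ∈ @residual _ (D.σ x') := by
  letI : TopologicalSpace {y : X // F x y} := D.σ x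
  obtain ⟨S, hSo, hSd, hSc, hSP⟩ := mem_residual_iff.1 hP
  -- the Borel sets
  obtain ⟨A, hA⟩ : ∃ A : Set {y : X // F x y} → Set X, A = fun t =>
      ⋃ n : ℕ, ⋃ _ : {y : {y : X // F x y} | y.1 ∈ D.O n x} ⊆ t, {y : X | y ∈ D.O n x} :=
    ⟨_, rfl⟩
  have hAm : ∀ t, MeasurableSet (A t) := by
    intro t
    rw [hA]
    refine MeasurableSet.iUnion fun n => MeasurableSet.iUnion fun _ => ?_
    exact measurable_prodMk_left (D.mO n)
  have hAt : ∀ t ∈ S, ∀ y : {y : X // F x y}, y.1 ∈ A t ↔ y ∈ t := by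
    intro t ht y
    rw [hA]
    simp only [mem_iUnion, mem_setOf_eq, exists_prop]
    constructor
    · rintro ⟨n, hn, hy⟩
      exact hn hy
    · intro hy
      obtain ⟨v, ⟨n, rfl⟩, hyv, hvt⟩ := (D.base x).exists_subset_of_mem_open hy (hSo t ht)
      exact ⟨n, hvt, hyv⟩
  have hAll : MeasurableSet (⋂ t ∈ S, A t) := MeasurableSet.biInter hSc fun t _ => hAm t
  have hres : {y : {y : X // F x y} | y.1 ∈ ⋂ t ∈ S, A t} ∈ @residual _ (D.σ x) := by
    refine mem_residual_iff.2 ⟨S, hSo, hSd, hSc, fun y hy => ?_⟩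
    rw [mem_setOf_eq, mem_iInter₂]
    intro t ht
    exact (hAt t ht y).2 (hy t ht)
  refine Filter.mem_of_superset (D.inv x x' _ h hAll hres) fun y hy => ?_
  have hxy : F x y.1 := F.trans h y.2
  have h1 : (⟨y.1, hxy⟩ : {y : X // F x y}) ∈ ⋂₀ S := by
    intro t ht
    rw [mem_setOf_eq, mem_iInter₂] at hy
    exact (hAt t ht ⟨y.1, hxy⟩).1 (hy t ht)
  exact hSP h1

end Pool.Agent.H56.MG
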