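import Pool.Agent.H93.EO.Def1
set_option autoImplicit false

/-!
# H56/MG/Ku: Kuratowski-Ulam for the abstract category structure

`Gd R`: every nonempty basic rectangle contains a nonempty basic rectangle on which `R` holds generically
in both orders, or `not R` does. All Borel `R` are good: rectangles by `S.bp`, complements trivially;
countable unions: if no subrectangle has some `R i`, the rectangles with `not R i` are dense, and
`ku_dense` gives `not R i` in both orders. Then `ku_gen` by contradiction. (helper13)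
-/

namespace Pool.Agent.H56.MG

open Set Pool.Agent.H93.EO

namespace KuM

variable {X : Type} [MeasurableSpace X] {F : X → X → Prop} (S : GenStr X F) (x : X)

theorem all {P : X → Prop} (h : ∀ y, F x y → P y) : S.gen x P :=
  S.mono x _ _ (fun y hy _ => h y hy)
    (S.openDense x univ fun m y hy => ⟨m, trivial, y, hy, hy⟩)

theorem two {P Q R : X → Prop} (hP : S.gen x P) (hQ : S.gen x Q)
    (h : ∀ y, F x y → P y → Q y → R y) : S.gen x R := by
  have h1 := S.nat x (fun n y => if n = 0 then P y else Q y) (by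
    intro n
    by_cases hn : n = 0
    · simpa [hn] using hP
    · simpa [hn] using hQ)
  refine S.mono x _ _ (fun y hy h2 => ?_) h1
  have a := h2 0
  have b := h2 1
  simp only [if_true, one_ne_zero, if_false] at a b
  exact h y hy a b

theorem pos {A : Set X} (hA : MeasurableSet A) (n : ℕ)
    (h : ¬ S.gen x fun y => y ∈ S.H n x → y ∉ A) :
    ∃ k, (S.H k x).Nonempty ∧ S.H k x ⊆ S.H n x ∧ S.gen x fun z => z ∈ S.H k x → z ∈ A := by
  by_contra hc
  apply h
  refine S.mono x _ _ ?_ (S.bp x A hA)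
  intro y _ h1 hn hyA
  obtain ⟨k, hk, hg⟩ := h1 hyA
  obtain ⟨j, hj, hjs⟩ := S.inter x y k n hk hn
  exact hc ⟨j, ⟨y, hj⟩, fun z hz => (hjs hz).2,
    S.mono x _ _ (fun z _ hz hzj => hz (hjs hzj).1) hg⟩

/-- without the restriction to a basic set -/
theorem pos' {A : Set X} (hA : MeasurableSet A) (h : ¬ S.gen x fun y => y ∉ A) :
    ∃ k, (S.H k x).Nonempty ∧ S.gen x fun z => z ∈ S.H k x → z ∈ A := by
  by_contra hc
  apply h
  refine S.mono x _ _ ?_ (S.bp x A hA)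
  intro y _ h1 hyA
  obtain ⟨k, hk, hg⟩ := h1 hyA
  exact hc ⟨k, ⟨y, hk⟩, hg⟩

theorem dich {A : Set X} (hA : MeasurableSet A) {n : ℕ} (hn : (S.H n x).Nonempty) :
    ∃ k, (S.H k x).Nonempty ∧ S.H k x ⊆ S.H n x ∧
      ((S.gen x fun z => z ∈ S.H k x → z ∈ A) ∨ S.gen x fun z => z ∈ S.H k x → z ∉ A) := by
  by_cases h : S.gen x fun y => y ∈ S.H n x → y ∉ A
  · exact ⟨n, hn, Subset.rfl, Or.inr h⟩
  · obtain ⟨k, h1, h2, h3⟩ := pos S x hA n h
    exact ⟨k, h1, h2, Or.inl h3⟩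

/-- generic in this order -/
def AA (n m : ℕ) (R : X → X → Prop) : Prop :=
  S.gen x fun y => y ∈ S.H n x → S.gen x fun w => w ∈ S.H m x → R y w

theorem AA_mono {n m : ℕ} {R R' : X → X → Prop} (h : ∀ y w, R y w → R' y w) (hA : AA S x n m R) :
    AA S x n m R' :=
  S.mono x _ _ (fun _ _ h1 hn => S.mono x _ _ (fun _ _ h2 hm => h _ _ (h2 hm)) (h1 hn)) hA

/-- open dense in a basic set -/
theorem od (n : ℕ) (N : ℕ → Prop)
    (h : ∀ j, (S.H j x).Nonempty → S.H j x ⊆ S.H n x → ∃ a, N a ∧ ∃ z, z ∈ S.H j x ∧ z ∈ S.H a x) :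
    S.gen x fun z => z ∈ S.H n x → ∃ a, N a ∧ z ∈ S.H a x := by
  refine S.mono x _ _ ?_ (S.openDense x {a | N a ∨ ∀ z, z ∈ S.H a x → z ∉ S.H n x} ?_)
  · rintro z _ ⟨a, ha, hza⟩ hzn
    rcases ha with ha | ha
    · exact ⟨a, ha, hza⟩
    · exact absurd hzn (ha z hza)
  · intro m y hy
    by_cases hc : ∃ z, z ∈ S.H m x ∧ z ∈ S.H n x
    · obtain ⟨z, hzm, hzn⟩ := hc
      obtain ⟨k, hk, hks⟩ := S.inter x z m n hzm hzn
      obtain ⟨a, ha, z', h1, h2⟩ := h k ⟨z, hk⟩ fun u hu => (hks hu).2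
      exact ⟨a, Or.inl ha, z', (hks h1).1, h2⟩
    · exact ⟨m, Or.inr fun z hz hzn => hc ⟨z, hz, hzn⟩, y, hy, hy⟩

/-- a dense family of rectangles -/
theorem dense_AA (n m : ℕ) (Q : X → X → Prop) (T : ℕ → ℕ → Prop)
    (hT : ∀ a b, T a b → AA S x a b Q)
    (hd : ∀ j k, (S.H j x).Nonempty → S.H j x ⊆ S.H n x → (S.H k x).Nonempty →
      S.H k x ⊆ S.H m x → ∃ a b, T a b ∧ (S.H a x).Nonempty ∧ S.H a x ⊆ S.H j x ∧
        (S.H b x).Nonempty ∧ S.H b x ⊆ S.H k x) : AA S x n m Q := by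
  have g1 : S.gen x fun y => ∀ k, (S.H k x).Nonempty → S.H k x ⊆ S.H m x → y ∈ S.H n x →
      ∃ a, (∃ b, T a b ∧ (S.H b x).Nonempty ∧ S.H b x ⊆ S.H k x) ∧ y ∈ S.H a x := by
    refine S.nat x _ fun k => ?_
    by_cases hk : (S.H k x).Nonempty ∧ S.H k x ⊆ S.H m x
    · refine S.mono x _ _ (fun y _ h1 _ _ h2 => h1 h2)
        (od S x n (fun a => ∃ b, T a b ∧ (S.H b x).Nonempty ∧ S.H b x ⊆ S.H k x) ?_)
      intro j hj hjs
      obtain ⟨a, b, hab, ⟨z, hz⟩, hajs, hb, hbk⟩ := hd j k hj hjs hk.1 hk.2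
      exact ⟨a, ⟨b, hab, hb, hbk⟩, z, hajs hz, hz⟩
    · exact all S x fun y _ h1 h2 => absurd ⟨h1, h2⟩ hk
  have g2 : S.gen x fun y => ∀ a b, T a b → y ∈ S.H a x →
      S.gen x fun w => w ∈ S.H b x → Q y w := by
    refine S.nat x _ fun a => S.nat x _ fun b => ?_
    by_cases hab : T a b
    · exact S.mono x _ _ (fun y _ h1 _ h2 => h1 h2) (hT a b hab)
    · exact all S x fun y _ h1 => absurd h1 hab
  refine two S x g1 g2 ?_
  intro y _ h1 h2 hn
  have g3 := od S x m (fun b => ∃ a, T a b ∧ y ∈ S.H a x) (by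
    intro j hj hjs
    obtain ⟨a, ⟨b, hab, ⟨z, hz⟩, hbj⟩, hya⟩ := h1 j hj hjs hn
    exact ⟨b, ⟨a, hab, hya⟩, z, hbj hz, hz⟩)
  have g4 : S.gen x fun w => ∀ b, (∃ a, T a b ∧ y ∈ S.H a x) → w ∈ S.H b x → Q y w := by
    refine S.nat x _ fun b => ?_
    by_cases hb : ∃ a, T a b ∧ y ∈ S.H a x
    · obtain ⟨a, hab, hya⟩ := hb
      exact S.mono x _ _ (fun w _ h3 _ h4 => h3 h4) (h2 a b hab hya)
    · exact all S x fun w _ h3 => absurd h3 hb
  refine two S x g3 g4 ?_
  intro w _ h3 h4 hm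
  obtain ⟨b, hb, hwb⟩ := h3 hm
  exact h4 b hb hwb

/-- both orders -/
def CC (n m : ℕ) (R : X → X → Prop) : Prop := AA S x n m R ∧ AA S x m n fun w y => R y w

theorem CC_mono {n m : ℕ} {R R' : X → X → Prop} (h : ∀ y w, R y w → R' y w) (hA : CC S x n m R) :
    CC S x n m R' :=
  ⟨AA_mono S x h hA.1, AA_mono S x (fun w y => h y w) hA.2⟩

/-- every rectangle contains a rectangle on which `R` or `¬ R` holds generically -/
def Gd (R : X → X → Prop) : Prop := ∀ n m, (S.H n x).Nonempty → (S.H m x).Nonempty →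
  ∃ a b, (S.H a x).Nonempty ∧ S.H a x ⊆ S.H n x ∧ (S.H b x).Nonempty ∧ S.H b x ⊆ S.H m x ∧
    (CC S x a b R ∨ CC S x a b fun y w => ¬ R y w)

theorem Gd_rect {A B : Set X} (hA : MeasurableSet A) (hB : MeasurableSet B) :
    Gd S x fun y w => y ∈ A ∧ w ∈ B := by
  intro n m hn hm
  obtain ⟨a, ha, han, hA'⟩ := dich S x hA hn
  obtain ⟨b, hb, hbm, hB'⟩ := dich S x hB hm
  refine ⟨a, b, ha, han, hb, hbm, ?_⟩
  rcases hA' with hA' | hA'
  · rcases hB' with hB' | hB'
    · left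
      refine ⟨S.mono x _ _ (fun y _ h1 h2 => S.mono x _ _ (fun w _ h3 h4 => ⟨h1 h2, h3 h4⟩) hB') hA',
        S.mono x _ _ (fun y _ h1 h2 => S.mono x _ _ (fun w _ h3 h4 => ⟨h3 h4, h1 h2⟩) hA') hB'⟩
    · right
      refine ⟨all S x fun y _ _ => S.mono x _ _ (fun w _ h3 h4 h5 => h3 h4 h5.2) hB',
        S.mono x _ _ (fun y _ h1 h2 => all S x fun w _ _ h5 => h1 h2 h5.2) hB'⟩
  · right
    refine ⟨S.mono x _ _ (fun y _ h1 h2 => all S x fun w _ _ h5 => h1 h2 h5.1) hA',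
      all S x fun y _ _ => S.mono x _ _ (fun w _ h3 h4 h5 => h3 h4 h5.1) hA'⟩

theorem Gd_compl {R : X → X → Prop} (h : Gd S x R) : Gd S x fun y w => ¬ R y w := by
  intro n m hn hm
  obtain ⟨a, b, ha, han, hb, hbm, h1⟩ := h n m hn hm
  refine ⟨a, b, ha, han, hb, hbm, ?_⟩
  rcases h1 with h1 | h1
  · exact Or.inr (CC_mono S x (fun y w h2 h3 => h3 h2) h1)
  · exact Or.inl h1

theorem Gd_union {R : ℕ → X → X → Prop} (h : ∀ i, Gd S x (R i)) :
    Gd S x fun y w => ∃ i, R i y w := by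
  intro n m hn hm
  by_cases hc : ∃ a b, ((S.H a x).Nonempty ∧ S.H a x ⊆ S.H n x ∧ (S.H b x).Nonempty ∧
      S.H b x ⊆ S.H m x) ∧ ∃ i, CC S x a b (R i)
  · obtain ⟨a, b, ⟨ha, han, hb, hbm⟩, i, hi⟩ := hc
    exact ⟨a, b, ha, han, hb, hbm, Or.inl (CC_mono S x (fun y w h1 => ⟨i, h1⟩) hi)⟩
  · refine ⟨n, m, hn, Subset.rfl, hm, Subset.rfl, Or.inr ?_⟩
    have key : ∀ i, CC S x n m fun y w => ¬ R i y w := by
      intro i
      have hd : ∀ j k, (S.H j x).Nonempty → S.H j x ⊆ S.H n x → (S.H k x).Nonempty →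
          S.H k x ⊆ S.H m x → ∃ a b, (CC S x a b fun y w => ¬ R i y w) ∧ (S.H a x).Nonempty ∧
            S.H a x ⊆ S.H j x ∧ (S.H b x).Nonempty ∧ S.H b x ⊆ S.H k x := by
        intro j k hj hjn hk hkm
        obtain ⟨a, b, ha, haj, hb, hbk, h1⟩ := h i j k hj hk
        rcases h1 with h1 | h1
        · exact absurd ⟨a, b, ⟨ha, haj.trans hjn, hb, hbk.trans hkm⟩, i, h1⟩ hc
        · exact ⟨a, b, h1, ha, haj, hb, hbk⟩
      refine ⟨dense_AA S x n m _ (fun a b => CC S x a b fun y w => ¬ R i y w)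
        (fun a b h1 => h1.1) hd, dense_AA S x m n _ (fun b a => CC S x a b fun y w => ¬ R i y w)
        (fun b a h1 => h1.2) ?_⟩
      intro k j hk hkm hj hjn
      obtain ⟨a, b, h1, ha, haj, hb, hbk⟩ := hd j k hj hjn hk hkm
      exact ⟨b, a, h1, hb, hbk, ha, haj⟩
    constructor
    · refine S.mono x _ _ (fun y _ h1 h2 => ?_) (S.nat x _ fun i => (key i).1)
      refine S.mono x _ _ (fun w _ h3 h4 => ?_) (S.nat x _ fun i => h1 i h2)
      rintro ⟨i, hi⟩
      exact h3 i h4 hi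
    · refine S.mono x _ _ (fun y _ h1 h2 => ?_) (S.nat x _ fun i => (key i).2)
      refine S.mono x _ _ (fun w _ h3 h4 => ?_) (S.nat x _ fun i => h1 i h2)
      rintro ⟨i, hi⟩
      exact h3 i h4 hi

theorem Gd_all (s : Set (X × X)) (hs : MeasurableSet s) : Gd S x fun y w => (y, w) ∈ s := by
  rw [← generateFrom_prod] at hs
  induction s, hs using MeasurableSpace.generateFrom_induction with
  | hC t ht _ =>
    obtain ⟨A, hA, B, hB, rfl⟩ := ht
    exact Gd_rect S x hA hB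
  | empty =>
    intro n m hn hm
    refine ⟨n, m, hn, Subset.rfl, hm, Subset.rfl, Or.inr ⟨?_, ?_⟩⟩
    · exact all S x fun y _ _ => all S x fun w _ _ h => h
    · exact all S x fun y _ _ => all S x fun w _ _ h => h
  | compl t _ ih => exact Gd_compl S x ih
  | iUnion f _ ih =>
    have h := Gd_union S x ih
    simpa only [mem_iUnion] using h

end KuM

open KuM

theorem ku_gen {X : Type} [MeasurableSpace X] [StandardBorelSpace X] {F : X → X → Prop} (hF : Equivalence F)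
    (S : GenStr X F) (x : X) (R : X → X → Prop) (hR : MeasurableSet {p : X × X | R p.1 p.2})
    (h : S.gen x fun y => S.gen x fun w => R y w) : S.gen x fun w => S.gen x fun y => R y w := by
  by_contra hcon
  have hG : Gd S x R := Gd_all S x _ hR
  have hR' : MeasurableSet {p : X × X | R p.2 p.1} := measurable_swap hR
  have hmH : ∀ n, MeasurableSet {y : X | y ∈ S.H n x} := fun n =>
    (measurable_prodMk_left (x := x)) (S.mH n)
  have hD : MeasurableSet {w : X | ¬ S.gen x fun y => R y w} :=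
    (S.cq X (fun _ => x) measurable_const (fun w y => R y w) hR').compl
  obtain ⟨m, hm, hm'⟩ := pos' S x hD (fun hh => hcon (S.mono x _ _ (fun w _ h1 => by
    by_contra h2
    exact h1 h2) hh))
  -- one basic set for nonmeager many `w`
  have hDn : ∀ n, MeasurableSet {w : X | (S.H n x).Nonempty ∧
      S.gen x fun y => y ∈ S.H n x → ¬ R y w} := by
    intro n
    refine MeasurableSet.inter (MeasurableSet.const _) ?_
    refine S.cq X (fun _ => x) measurable_const (fun w y => y ∈ S.H n x → ¬ R y w) ?_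
    have e : {q : X × X | q.2 ∈ S.H n x → ¬ R q.2 q.1} =
        (Prod.snd ⁻¹' {y : X | y ∈ S.H n x})ᶜ ∪ {q : X × X | R q.2 q.1}ᶜ := by
      ext q
      simp only [mem_setOf_eq, mem_union, mem_compl_iff, mem_preimage]
      tauto
    rw [e]
    exact (measurable_snd (hmH n)).compl.union hR'.compl
  have hex : S.gen x fun w => w ∈ S.H m x → ∃ n, (S.H n x).Nonempty ∧
      S.gen x fun y => y ∈ S.H n x → ¬ R y w := by
    refine S.mono x _ _ (fun w _ h1 h2 => ?_) hm'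
    have h3 : ¬ S.gen x fun y => R y w := h1 h2
    have hm2 : MeasurableSet {y : X | ¬ R y w} :=
      ((measurable_prodMk_left (x := w)) hR').compl
    obtain ⟨k, hk, hk'⟩ := pos' S x hm2 (fun hh => h3 (S.mono x _ _ (fun y _ h4 => by
      by_contra h5
      exact h4 h5) hh))
    exact ⟨k, hk, hk'⟩
  obtain ⟨n, hn⟩ : ∃ n, ¬ S.gen x fun w => w ∈ S.H m x → w ∉ {w : X | (S.H n x).Nonempty ∧
      S.gen x fun y => y ∈ S.H n x → ¬ R y w} := by
    by_contra hc
    have hc' : ∀ n, S.gen x fun w => w ∈ S.H m x → w ∉ {w : X | (S.H n x).Nonempty ∧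
        S.gen x fun y => y ∈ S.H n x → ¬ R y w} := fun n => by
      by_contra h1
      exact hc ⟨n, h1⟩
    obtain ⟨z, hz⟩ := hm
    refine S.baire x m z hz (two S x (S.nat x _ hc') hex ?_)
    intro w _ h1 h2 h3
    obtain ⟨n, hn⟩ := h2 h3
    exact h1 n h3 hn
  obtain ⟨m', hm1, hm2, hm3⟩ := pos S x (hDn n) m hn
  have hnn : (S.H n x).Nonempty := by
    by_contra hc
    refine hn (all S x fun w _ _ h1 => hc h1.1)
  obtain ⟨a, b, ha, han, hb, hbm, h1⟩ := hG n m' hnn hm1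
  have hna : ¬ S.gen x fun z => z ∉ S.H a x := by
    obtain ⟨z, hz⟩ := ha
    exact S.baire x a z hz
  have hnb : ¬ S.gen x fun z => z ∉ S.H b x := by
    obtain ⟨z, hz⟩ := hb
    exact S.baire x b z hz
  rcases h1 with h1 | h1
  · apply hnb
    refine two S x h1.2 hm3 ?_
    intro w _ h2 h3 h4
    have h5 := h2 h4
    have h6 := (h3 (hbm h4)).2
    apply hna
    refine two S x h5 h6 ?_
    intro y _ h7 h8 h9
    exact h8 (han h9) (h7 h9)
  · apply hna
    refine two S x h1.1 h ?_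
    intro y _ h2 h3 h4
    apply hnb
    refine two S x (h2 h4) h3 ?_
    intro w _ h7 h8 h9
    exact h7 h9 h8

end Pool.Agent.H56.MG
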