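import Pool.Agent.H56.MG.Def
set_option autoImplicit false

/-!
# H56/MG/Pair: category data on the space of pairs
-/

namespace Pool.Agent.H56.MG

open Set Topology TopologicalSpace Pool.Agent.H93.EO

variable {X : Type} [MeasurableSpace X] {F : Setoid X}

/-- `x` is the first coordinate of the members of the class `q` -/
def Fst (q : Quotient (E2 F)) (x : X) : Prop := ∀ z : P2 F, Quotient.mk (E2 F) z = q ↔ z.1.1 = x

omit [MeasurableSpace X] in
theorem fst_mk (z : P2 F) : Fst (Quotient.mk (E2 F) z) z.1.1 := by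
  intro z'
  rw [Quotient.eq]
  exact Iff.rfl

theorem fst_out (q : Quotient (E2 F)) : Fst q q.out.1.1 := by
  have h := fst_mk q.out
  rwa [Quotient.out_eq] at h

/-- the class is in bijection with the class of `x` -/
def pairEq (q : Quotient (E2 F)) (x : X) (hx : Fst q x) :
    {z : P2 F // Quotient.mk (E2 F) z = q} ≃ {y : X // F x y} where
  toFun z := ⟨z.1.1.2, by
    have h := (hx z.1).1 z.2
    rw [← h]
    exact z.1.2⟩
  invFun y := ⟨mk2 y.2, (hx _).2 rfl⟩
  left_inv z := by
    have h := (hx z.1).1 z.2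
    apply Subtype.ext
    apply Subtype.ext
    exact Prod.ext h.symm rfl
  right_inv y := rfl

/-- the topology of the class -/
noncomputable def tp (D : Dat X F) (q : Quotient (E2 F)) : TopologicalSpace {z : P2 F // Quotient.mk (E2 F) z = q} :=
  TopologicalSpace.induced (pairEq q q.out.1.1 (fst_out q)) (D.σ q.out.1.1)

theorem tp_eq (D : Dat X F) (q : Quotient (E2 F)) (x : X) (hx : Fst q x) :
    tp D q = TopologicalSpace.induced (pairEq q x hx) (D.σ x) := by
  have h : q.out.1.1 = x := (hx q.out).1 (Quotient.out_eq q)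
  subst h
  rfl

/-- the homeomorphism -/
noncomputable def homP (D : Dat X F) (q : Quotient (E2 F)) (x : X) (hx : Fst q x) :
    @Homeomorph {z : P2 F // Quotient.mk (E2 F) z = q} {y : X // F x y} (tp D q) (D.σ x) :=
  letI := tp D q
  letI := D.σ x
  (pairEq q x hx).toHomeomorphOfIsInducing ⟨tp_eq D q x hx⟩

open Classical in
/-- the dense sequence -/
noncomputable def eP (D : Dat X F) (i : ℕ) (z : P2 F) : P2 F :=
  ⟨if F z.1.1 (D.e i z.1.1) then (z.1.1, D.e i z.1.1) else z.1, by
    split_ifs with h
    · exact h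
    · exact z.2⟩

theorem meP (D : Dat X F) (i : ℕ) : Measurable (eP D i) := by
  classical
  have h1 : Measurable fun z : P2 F => z.1 := measurable_subtype_coe
  have h2 : Measurable fun z : P2 F => z.1.1 := measurable_fst.comp h1
  have h3 : Measurable fun z : P2 F => (z.1.1, D.e i z.1.1) := h2.prodMk ((D.me i).comp h2)
  exact (Measurable.ite (h3 D.mF) h3 h1).subtype_mk

/-- the category data of the space of pairs -/
noncomputable def catP [StandardBorelSpace X] (D : Dat X F) : CatData (P2 F) (E2 F) where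
  τ := tp D
  t0 q :=
    letI := tp D q
    letI := D.σ q.out.1.1
    haveI := D.t0 q.out.1.1
    (homP D q q.out.1.1 (fst_out q)).symm.t0Space
  baire q :=
    letI := tp D q
    letI := D.σ q.out.1.1
    haveI := D.baire q.out.1.1
    (homP D q q.out.1.1 (fst_out q)).isOpenEmbedding.baireSpace
  O n z := {z' | z'.1.2 ∈ D.O n z.1.1}
  e := eP D
  mF := by
    have h1 : Measurable fun z : P2 F => z.1 := measurable_subtype_coe
    have h2 : Measurable fun z : P2 F => z.1.1 := measurable_fst.comp h1
    exact measurableSet_eq_fun (h2.comp measurable_fst) (h2.comp measurable_snd)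
  mO n := by
    have h1 : Measurable fun z : P2 F => z.1 := measurable_subtype_coe
    have h2 : Measurable fun z : P2 F => z.1.1 := measurable_fst.comp h1
    have h3 : Measurable fun z : P2 F => z.1.2 := measurable_snd.comp h1
    exact ((h2.comp measurable_fst).prodMk (h3.comp measurable_snd)) (D.mO n)
  base z := by
    letI := tp D (Quotient.mk (E2 F) z)
    letI := D.σ z.1.1
    have h1 : IsTopologicalBasis (range fun n => {y : {y : X // F z.1.1 y} | y.1 ∈ D.O n z.1.1}) := D.base z.1.1
    have h2 := h1.isInducing (homP D _ z.1.1 (fst_mk z)).isInducing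
    have e : (range fun n => {y : {y : P2 F // Quotient.mk (E2 F) y = Quotient.mk (E2 F) z} |
        y.1 ∈ ({z' : P2 F | z'.1.2 ∈ D.O n z.1.1} : Set (P2 F))}) =
        preimage (homP D _ z.1.1 (fst_mk z)) '' (range fun n => {y : {y : X // F z.1.1 y} | y.1 ∈ D.O n z.1.1}) := by
      rw [← range_comp]
      rfl
    rw [e]
    exact h2
  me := meP D
  dense z := by
    letI := tp D (Quotient.mk (E2 F) z)
    letI := D.σ z.1.1
    have h1 := (D.dense z.1.1).preimage (homP D _ z.1.1 (fst_mk z)).isOpenMap
    refine h1.mono ?_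
    rintro y ⟨i, hi⟩
    refine ⟨i, ?_⟩
    have h3 : y.1.1.1 = z.1.1 := (fst_mk z y.1).1 y.2
    have h4 : y.1.1.2 = D.e i z.1.1 := hi
    have h5 : F z.1.1 (D.e i z.1.1) := by
      rw [← h4, ← h3]
      exact y.1.2
    apply Subtype.ext
    classical
    have h6 : (eP D i z).1 = (z.1.1, D.e i z.1.1) := if_pos h5
    rw [h6]
    exact Prod.ext h3 h4

theorem exists_pairs {X : Type} [MeasurableSpace X] [StandardBorelSpace X] {F : Setoid X} (D : Dat X F) :
    ∃ C : CatData (P2 F) (E2 F), ∀ (x : X) (A : P2 F → Prop), gn C (mk2 (F.refl x)) A ↔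
      {y : {y : X // F x y} | A (mk2 y.2)} ∈ @residual _ (D.σ x) := by
  refine ⟨catP D, fun x A => ?_⟩
  change {y : {y : P2 F // Quotient.mk (E2 F) y = Quotient.mk (E2 F) (mk2 (F.refl x))} | A y.1} ∈
    @residual _ (tp D (Quotient.mk (E2 F) (mk2 (F.refl x)))) ↔ _
  letI := tp D (Quotient.mk (E2 F) (mk2 (F.refl x)))
  letI := D.σ x
  have hx : Fst (Quotient.mk (E2 F) (mk2 (F.refl x))) x := fst_mk (mk2 (F.refl x))
  rw [← (homP D _ x hx).residual_map_eq, Filter.mem_map]
  have e : {y : {y : P2 F // Quotient.mk (E2 F) y = Quotient.mk (E2 F) (mk2 (F.refl x))} | A y.1} =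
      (homP D _ x hx) ⁻¹' {y : {y : X // F x y} | A (mk2 y.2)} := by
    ext y
    have h3 : (pairEq _ x hx).symm (pairEq _ x hx y) = y := (pairEq _ x hx).left_inv y
    change A y.1 ↔ A ((pairEq _ x hx).symm (pairEq _ x hx y)).1
    rw [h3]
  rw [e]

end Pool.Agent.H56.MG
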