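import Pool.Agent.H56.MG.Def
import Pool.Agent.H56.MG.Ku
import Pool.Agent.H56.MG.Inv
import Pool.Agent.H56.MG.Pair
import Pool.Agent.H93.EO.Lsu
set_option autoImplicit false

/-!
# H56/MG/Pg: the structure of the points (from Ku, Inv, Pair and lsu)
-/

namespace Pool.Agent.H56.MG

open Set Topology TopologicalSpace Pool.Agent.H93.EO

variable {X : Type} [MeasurableSpace X] {F : Setoid X}

private theorem mk2_eq {x : X} (z : P2 F) (h : x = z.1.1) (h' : F x z.1.2) : mk2 h' = z := by
  apply Subtype.ext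
  exact Prod.ext h rfl

private theorem mk2_meas {P : Type} [MeasurableSpace P] {π : P → X} (hπ : Measurable π) :
    Measurable fun p => (mk2 (F.refl (π p)) : P2 F) :=
  Measurable.subtype_mk (hπ.prodMk hπ)

private theorem snd_meas : Measurable fun z : P2 F => z.1.2 :=
  measurable_snd.comp measurable_subtype_coe

private theorem fst_meas : Measurable fun z : P2 F => z.1.1 :=
  measurable_fst.comp measurable_subtype_coe

theorem exists_pg_of [StandardBorelSpace X] (D : Dat X F)
    (hC : ∃ C : CatData (P2 F) (E2 F), ∀ (x : X) (A : P2 F → Prop), gn C (mk2 (F.refl x)) A ↔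
      {y : {y : X // F x y} | A (mk2 y.2)} ∈ @residual _ (D.σ x))
    (hinv : ∀ (x x' : X) (P : X → Prop), F x x' →
      {y : {y : X // F x y} | P y.1} ∈ @residual _ (D.σ x) →
      {y : {y : X // F x' y} | P y.1} ∈ @residual _ (D.σ x'))
    (hku : ∀ [StandardBorelSpace (P2 F)] (S : GenStr (P2 F) (fun z w => E2 F z w)) (x : P2 F)
      (R : P2 F → P2 F → Prop), MeasurableSet {p : P2 F × P2 F | R p.1 p.2} →
      (S.gen x fun y => S.gen x fun w => R y w) → S.gen x fun w => S.gen x fun y => R y w) :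
    ∃ G : PG X (fun x y => F x y), ∀ (x : X) (P : X → Prop), G.gen x P ↔
      {y : {y : X // F x y} | P y.1} ∈ @residual _ (D.σ x) := by
  classical
  obtain ⟨C, hC⟩ := hC
  have : StandardBorelSpace (P2 F) := D.mF.standardBorel
  have hgen : ∀ (x : X) (P : X → Prop), (genOf C).gen (mk2 (F.refl x)) (fun z => P z.1.2) ↔
      {y : {y : X // F x y} | P y.1} ∈ @residual _ (D.σ x) := fun x P => hC x fun z => P z.1.2
  generalize genOf C = S at hgen
  have hrel : ∀ (x : X) (z : P2 F), E2 F (mk2 (F.refl x)) z → x = z.1.1 := fun x z h => h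
  have hF : ∀ (x : X) (z : P2 F), E2 F (mk2 (F.refl x)) z → F x z.1.2 := by
    intro x z h
    have h1 := hrel x z h
    rw [h1]
    exact z.2
  let H : ℕ → X → Set X := fun n x => {w | ∃ h : F x w, mk2 h ∈ S.H n (mk2 (F.refl x))}
  have hH : ∀ (n : ℕ) (x : X) (z : P2 F), E2 F (mk2 (F.refl x)) z →
      (z.1.2 ∈ H n x ↔ z ∈ S.H n (mk2 (F.refl x))) := by
    intro n x z h
    constructor
    · rintro ⟨h1, h2⟩
      rw [mk2_eq z (hrel x z h) h1] at h2
      exact h2
    · intro h2
      refine ⟨hF x z h, ?_⟩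
      rw [mk2_eq z (hrel x z h) (hF x z h)]
      exact h2
  refine ⟨{ H := H
            gen := fun x P => S.gen (mk2 (F.refl x)) (fun z => P z.1.2)
            sub := ?_
            mono := ?_
            nat := ?_
            proper := ?_
            inv := ?_
            bp := ?_
            mH := ?_
            cq := ?_
            ku := ?_
            sel := ?_ }, fun x P => hgen x P⟩
  · rintro n x y ⟨h, -⟩
    exact h
  · intro x P Q h hP
    exact S.mono _ _ _ (fun z hz hPz => h z.1.2 (hF x z hz) hPz) hP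
  · intro x P h
    exact S.nat _ (fun n z => P n z.1.2) h
  · intro x h
    obtain ⟨n, hn⟩ := S.cover (mk2 (F.refl x)) (mk2 (F.refl x)) ((E2 F).refl _)
    refine S.baire _ n _ hn ?_
    exact S.mono _ _ _ (fun z _ hz => hz.elim) h
  · intro x x' P h hP
    exact (hgen x' P).2 (hinv x x' P h ((hgen x P).1 hP))
  · intro x A hA
    have h1 := S.bp (mk2 (F.refl x)) {z | z.1.2 ∈ A} (snd_meas hA)
    refine S.mono _ _ _ ?_ h1
    intro z hz h2 hzA
    obtain ⟨n, hn, h3⟩ := h2 hzA
    refine ⟨n, (hH n x z hz).2 hn, ?_⟩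
    refine S.mono _ _ _ ?_ h3
    intro w hw h4 hwH
    exact h4 ((hH n x w hw).1 hwH)
  · intro n
    have h1 : MeasurableSet {z : P2 F | z ∈ S.H n (mk2 (F.refl z.1.1))} := by
      have h2 : Measurable fun z : P2 F => ((mk2 (F.refl z.1.1) : P2 F), z) :=
        (mk2_meas fst_meas).prodMk measurable_id
      exact h2 (S.mH n)
    have h3 : {p : X × X | p.2 ∈ H n p.1} = Subtype.val '' {z : P2 F | z ∈ S.H n (mk2 (F.refl z.1.1))} := by
      ext p
      constructor
      · rintro ⟨h, hm⟩
        exact ⟨mk2 h, hm, rfl⟩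
      · rintro ⟨z, hz, rfl⟩
        exact ⟨z.2, hz⟩
    rw [h3]
    exact (MeasurableEmbedding.subtype_coe D.mF).measurableSet_image' h1
  · intro P _ _ π hπ A hA
    refine S.cq P (fun p => mk2 (F.refl (π p))) (mk2_meas hπ) (fun p z => A p z.1.2) ?_
    have h2 : Measurable fun q : P × P2 F => (q.1, q.2.1.2) :=
      measurable_fst.prodMk (snd_meas.comp measurable_snd)
    exact h2 hA
  · intro x R hR h
    refine hku S (mk2 (F.refl x)) (fun z w => R z.1.2 w.1.2) ?_ h
    have h2 : Measurable fun q : P2 F × P2 F => (q.1.1.2, q.2.1.2) :=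
      (snd_meas.comp measurable_fst).prodMk (snd_meas.comp measurable_snd)
    exact h2 hR
  · intro B hB
    let B' : Set (P2 F × P2 F) := {p | p.1.1.1 = p.2.1.1 ∧ p.2.1 ∈ B}
    have hB' : MeasurableSet B' :=
      (measurableSet_eq_fun (fst_meas.comp measurable_fst) (fst_meas.comp measurable_snd)).inter
        ((measurable_subtype_coe.comp measurable_snd) hB)
    have hD' : MeasurableSet {z : P2 F | ¬ S.gen z fun w => (z, w) ∉ B'} :=
      (S.cq (P2 F) id measurable_id (fun z w => (z, w) ∉ B') hB'.compl).compl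
    obtain ⟨s, hs, h⟩ := lsu S hB' hD' fun z hz => hz
    refine ⟨fun x => (s (mk2 (F.refl x))).1.2, snd_meas.comp (hs.comp (mk2_meas measurable_id)), ?_⟩
    intro x hx
    have h1 : ¬ S.gen (mk2 (F.refl x)) fun w => ((mk2 (F.refl x) : P2 F), w) ∉ B' := by
      intro h2
      refine hx (S.mono _ _ _ ?_ h2)
      intro w hw h3 h4
      refine h3 ⟨hrel x w hw, ?_⟩
      have h5 : w.1 = (x, w.1.2) := Prod.ext (hrel x w hw).symm rfl
      rw [h5]
      exact h4
    obtain ⟨h2, h3⟩ := h (mk2 (F.refl x)) h1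
    have h4 : x = (s (mk2 (F.refl x))).1.1 := h2
    have h5 : (x, (s (mk2 (F.refl x))).1.2) = (s (mk2 (F.refl x))).1 := Prod.ext h4 rfl
    show (x, (s (mk2 (F.refl x))).1.2) ∈ B
    rw [h5]
    exact h3

theorem exists_pg [StandardBorelSpace X] (D : Dat X F) :
    ∃ G : PG X (fun x y => F x y), ∀ (x : X) (P : X → Prop), G.gen x P ↔
      {y : {y : X // F x y} | P y.1} ∈ @residual _ (D.σ x) :=
  exists_pg_of D (exists_pairs D) (dat_inv D)
    (ku_gen ⟨(E2 F).refl, (E2 F).symm, (E2 F).trans⟩)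

end Pool.Agent.H56.MG
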