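import Pool.Agent.H56.MG.StrB
import Pool.Agent.H56.MG.Pg
set_option autoImplicit false

/-!
# H56/MG/Fin: the theorem
-/

namespace Pool.Agent.H56.MG

open Set Topology TopologicalSpace Pool.Agent.H93.EO

variable {X : Type} [MeasurableSpace X]

theorem main_pg [StandardBorelSpace X] {F : X → X → Prop} (hE : Equivalence F)
    (hF : MeasurableSet {p : X × X | F p.1 p.2}) (G : PG X F) :
    ∃ (G Z : Type) (_ : TopologicalSpace G) (_ : Group G) (_ : IsTopologicalGroup G)
      (_ : PolishSpace G) (_ : TopologicalSpace Z) (_ : PolishSpace Z) (_ : MeasurableSpace Z)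
      (_ : BorelSpace Z) (_ : MulAction G Z) (_ : ContinuousSMul G Z) (f : X → Z),
      Measurable f ∧ ∀ x x' : X, F x x' ↔ ∃ g : G, g • f x = f x' := by
  have hS : StandardBorelSpace {x : X // x ∈ Xs G} := (mXs hF G).standardBorel
  have hE' : Equivalence fun x y : {x : X // x ∈ Xs G} => F x.1 y.1 :=
    ⟨fun x => hE.refl x.1, fun h => hE.symm h, fun h h' => hE.trans h h'⟩
  have hF' : MeasurableSet {p : {x : X // x ∈ Xs G} × {x : X // x ∈ Xs G} | F p.1.1 p.2.1} :=
    ((measurable_subtype_coe.comp measurable_fst).prodMk (measurable_subtype_coe.comp measurable_snd)) hF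
  obtain ⟨Gr, Zr, i1, i2, i3, i4, i5, i6, i7, i8, i9, i10, f, hf, h1⟩ := part2 hE' hF' (str hE hF G)
  have hB : MeasurableSet {p : X × X | p.2 ∈ Xs G ∧ F p.1 p.2} := (measurable_snd (mXs hF G)).inter hF
  obtain ⟨s, hs, h2⟩ := G.sel _ hB
  have h3 : ∀ x, s x ∈ Xs G ∧ F x (s x) := by
    intro x
    refine h2 x fun h4 => G.proper x ?_
    exact gen_and G (fun z hz h5 h6 => h5 ⟨h6, hz⟩) h4 (xs_gen hE hF G x)
  refine ⟨Gr, Zr, i1, i2, i3, i4, i5, i6, i7, i8, i9, i10, fun x => f ⟨s x, (h3 x).1⟩,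
    hf.comp (hs.subtype_mk), fun x x' => ?_⟩
  rw [← h1]
  constructor
  · intro h
    exact hE.trans (hE.symm (h3 x).2) (hE.trans h (h3 x').2)
  · intro h
    exact hE.trans (h3 x).2 (hE.trans h (hE.symm (h3 x').2))

theorem main_mg [StandardBorelSpace X] {F : Setoid X} (D : Dat X F) :
    ∃ (G Z : Type) (_ : TopologicalSpace G) (_ : Group G) (_ : IsTopologicalGroup G)
      (_ : PolishSpace G) (_ : TopologicalSpace Z) (_ : PolishSpace Z) (_ : MeasurableSpace Z)
      (_ : BorelSpace Z) (_ : MulAction G Z) (_ : ContinuousSMul G Z) (f : X → Z),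
      Measurable f ∧ ∀ x x' : X, F x x' ↔ ∃ g : G, g • f x = f x' := by
  obtain ⟨G, -⟩ := exists_pg D
  exact main_pg (F := fun x y => F x y) ⟨F.refl, F.symm, F.trans⟩ D.mF G

end Pool.Agent.H56.MG
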