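import Pool.Agent.H56.MG.Def

set_option autoImplicit false

/-!
# H56/MG/Mea: measurability of `Z`, `Bl`, `Xs`, `Hs`
-/

namespace Pool.Agent.H56.MG

open Set Topology TopologicalSpace Pool.Agent.H93.EO

variable {X : Type} [MeasurableSpace X] {F : X → X → Prop}

theorem mZ [StandardBorelSpace X] (hF : MeasurableSet {p : X × X | F p.1 p.2}) (G : PG X F) (n m : ℕ) :
    MeasurableSet {p : X × X | p.2 ∈ Z G n m p.1} := by
  have h1 : MeasurableSet {q : (X × X) × X | ¬ (q.2 ∈ G.H n q.1.1 ∧ q.1.2 ∈ G.H m q.2)} := by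
    have e1 : MeasurableSet {q : (X × X) × X | q.2 ∈ G.H n q.1.1} :=
      (measurable_fst.fst.prodMk measurable_snd : Measurable fun q : (X × X) × X => (q.1.1, q.2)) (G.mH n)
    have e2 : MeasurableSet {q : (X × X) × X | q.1.2 ∈ G.H m q.2} :=
      (measurable_snd.prodMk measurable_fst.snd : Measurable fun q : (X × X) × X => (q.2, q.1.2)) (G.mH m)
    exact (e1.inter e2).compl
  have h2 := G.cq (X × X) Prod.fst measurable_fst
    (fun p y => ¬ (y ∈ G.H n p.1 ∧ p.2 ∈ G.H m y)) h1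
  exact hF.inter h2.compl

theorem mBl [StandardBorelSpace X] (hF : MeasurableSet {p : X × X | F p.1 p.2}) (G : PG X F)
    (l : List (ℕ × ℕ)) : MeasurableSet {p : X × X | p.2 ∈ Bl G l p.1} := by
  have h1 : MeasurableSet {p : X × X | ∀ q ∈ l, p.2 ∈ Z G q.1 q.2 p.1} := by
    have e : {p : X × X | ∀ q ∈ l, p.2 ∈ Z G q.1 q.2 p.1} =
        ⋂ q : ℕ × ℕ, ⋂ _ : q ∈ l, {p : X × X | p.2 ∈ Z G q.1 q.2 p.1} := by
      ext p
      simp only [mem_ofPred_eq, mem_iInter]
    rw [e]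
    exact MeasurableSet.iInter fun q => MeasurableSet.iInter fun _ => mZ hF G q.1 q.2
  exact hF.inter h1

theorem mXs [StandardBorelSpace X] (hF : MeasurableSet {p : X × X | F p.1 p.2}) (G : PG X F) :
    MeasurableSet (Xs G) := by
  have e : Xs G = ⋂ l : List (ℕ × ℕ), ({w : X | w ∈ Bl G l w}ᶜ ∪ {w : X | G.gen w fun y => y ∉ Bl G l w}ᶜ) := by
    ext w
    simp only [Xs, mem_ofPred_eq, mem_iInter, mem_union, mem_compl_iff]
    exact forall_congr' fun l => imp_iff_not_or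
  rw [e]
  refine MeasurableSet.iInter fun l => MeasurableSet.union ?_ ?_
  · exact ((measurable_id.prodMk measurable_id : Measurable fun w : X => (w, w)) (mBl hF G l)).compl
  · exact (G.cq X id measurable_id (fun w y => y ∉ Bl G l w) (mBl hF G l).compl).compl

theorem mHs [StandardBorelSpace X] (hF : MeasurableSet {p : X × X | F p.1 p.2}) (G : PG X F) (k : ℕ) :
    MeasurableSet {p : X × X | p.2 ∈ Hs G k p.1} := by
  have e : {p : X × X | p.2 ∈ Hs G k p.1} = Prod.snd ⁻¹' Xs G ∩ ⋃ l : List (ℕ × ℕ),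
      ({p : X × X | p.2 ∈ Bl G l p.1} ∩
        Prod.fst ⁻¹' {x : X | G.gen x fun z => z ∈ Bl G l x → z ∈ Bl G (dec k) x}) := by
    ext p
    simp only [Hs, mem_ofPred_eq, mem_inter_iff, mem_preimage, mem_iUnion]
  rw [e]
  refine (measurable_snd (mXs hF G)).inter (MeasurableSet.iUnion fun l => (mBl hF G l).inter (measurable_fst ?_))
  refine G.cq X id measurable_id (fun x z => z ∈ Bl G l x → z ∈ Bl G (dec k) x) ?_
  have e2 : {q : X × X | q.2 ∈ Bl G l q.1 → q.2 ∈ Bl G (dec k) q.1} =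
      {q : X × X | q.2 ∈ Bl G l q.1}ᶜ ∪ {q : X × X | q.2 ∈ Bl G (dec k) q.1} := by
    ext q
    simp only [mem_ofPred_eq, mem_union, mem_compl_iff]
    exact imp_iff_not_or
  rw [e2]
  exact (mBl hF G l).compl.union (mBl hF G (dec k))

end Pool.Agent.H56.MG
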