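import Pool.Agent.H56.MG.Bas
set_option autoImplicit false

/-!
# H56/MG/Xs: the good points
-/

namespace Pool.Agent.H56.MG

open Set Topology TopologicalSpace Pool.Agent.H93.EO

variable {X : Type} [MeasurableSpace X] {F : X → X → Prop}

theorem xs_pos (hE : Equivalence F) (G : PG X F) {x w : X} {l : List (ℕ × ℕ)} (hw : w ∈ Xs G) (h : F x w)
    (hl : w ∈ Bl G l x) : ¬ G.gen x fun y => y ∉ Bl G l x := by
  intro h0
  obtain ⟨l', h1, h2⟩ := bl_change hE G h hl
  exact hw l' h1 (G.mono w _ _ (fun y _ h3 h4 => h3 (h2 h4)) (G.inv x w _ h h0))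

theorem xs_gen [StandardBorelSpace X] (hE : Equivalence F) (_hF : MeasurableSet {p : X × X | F p.1 p.2})
    (G : PG X F) (x : X) : G.gen x fun w => w ∈ Xs G := by
  have h1 : G.gen x fun w => ∀ k, (G.gen x fun y => y ∉ Bl G (dec k) x) → w ∉ Bl G (dec k) x := by
    refine G.nat x _ fun k => ?_
    by_cases h : G.gen x fun y => y ∉ Bl G (dec k) x
    · exact G.mono x _ _ (fun y _ h' _ => h') h
    · exact G.all x fun y _ h' => absurd h' h
  refine G.mono x _ _ (fun w hxw h2 => ?_) h1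
  intro l hl h3
  obtain ⟨l', h4, h5⟩ := bl_change hE G (hE.symm hxw) hl
  have h6 : dec (Encodable.encode l') = l' := Denumerable.ofNat_encode l'
  have h7 := h2 (Encodable.encode l')
  rw [h6] at h7
  exact h7 (G.mono x _ _ (fun y _ h8 h9 => h8 (h5 h9)) (G.inv w x _ (hE.symm hxw) h3)) h4

end Pool.Agent.H56.MG
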