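import Pool.Agent.H56.MG.Bas
import Pool.Agent.H56.MG.Mea
import Pool.Agent.H56.MG.Bp
import Pool.Agent.H56.MG.Xs
set_option autoImplicit false

/-!
# H56/MG/Str: the abstract category structure on `Xs`
-/

namespace Pool.Agent.H56.MG

open Set Topology TopologicalSpace Pool.Agent.H93.EO

variable {X : Type} [MeasurableSpace X] {F : X → X → Prop}

theorem dec_surj (l : List (ℕ × ℕ)) : ∃ k, dec k = l := ⟨Encodable.encode l, Denumerable.ofNat_encode l⟩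

theorem gen_mono (G : PG X F) {x : X} {P Q : X → Prop} (h : ∀ y, F x y → P y → Q y) (hP : G.gen x P) :
    G.gen x Q := G.mono x P Q h hP

theorem gen_and (G : PG X F) {x : X} {P Q R : X → Prop} (h : ∀ y, F x y → P y → Q y → R y) (hP : G.gen x P)
    (hQ : G.gen x Q) : G.gen x R := gen_mono G (fun y hy h' => h y hy h'.1 h'.2) (G.and hP hQ)

theorem bl_append (G : PG X F) (l l' : List (ℕ × ℕ)) (x w : X) :
    w ∈ Bl G (l ++ l') x ↔ w ∈ Bl G l x ∧ w ∈ Bl G l' x := by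
  constructor
  · rintro ⟨h1, h2⟩
    exact ⟨⟨h1, fun p hp => h2 p (List.mem_append_left _ hp)⟩, ⟨h1, fun p hp => h2 p (List.mem_append_right _ hp)⟩⟩
  · rintro ⟨⟨h1, h2⟩, -, h3⟩
    refine ⟨h1, fun p hp => ?_⟩
    rcases List.mem_append.1 hp with h | h
    · exact h2 p h
    · exact h3 p h

theorem hs_ae (G : PG X F) (k : ℕ) (x : X) : G.gen x fun z => z ∈ Hs G k x → z ∈ Bl G (dec k) x := by
  have h1 : G.gen x fun z => ∀ i, (G.gen x fun z => z ∈ Bl G (dec i) x → z ∈ Bl G (dec k) x) →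
      z ∈ Bl G (dec i) x → z ∈ Bl G (dec k) x := by
    refine G.nat x _ fun i => ?_
    by_cases h : G.gen x fun z => z ∈ Bl G (dec i) x → z ∈ Bl G (dec k) x
    · exact gen_mono G (fun y _ h' _ => h') h
    · exact G.all x fun y _ h' => absurd h' h
  refine gen_mono G (fun z _ hz hz' => ?_) h1
  obtain ⟨-, l, h2, h3⟩ := hz'
  obtain ⟨i, rfl⟩ := dec_surj l
  exact hz i h3 h2

theorem bl_hs (G : PG X F) {k : ℕ} {x w : X} (hw : w ∈ Xs G) (h : w ∈ Bl G (dec k) x) : w ∈ Hs G k x :=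
  ⟨hw, dec k, h, G.all x fun _ _ h => h⟩

theorem hs_F (G : PG X F) {k : ℕ} {x w : X} (h : w ∈ Hs G k x) : F x w := by
  obtain ⟨-, l, h1, -⟩ := h
  exact h1.1

theorem hs_sub (G : PG X F) {k n : ℕ} {x : X} (h : G.gen x fun z => z ∈ Bl G (dec k) x → z ∈ Bl G (dec n) x) :
    Hs G k x ⊆ Hs G n x := by
  rintro v ⟨hv, l, h1, h2⟩
  exact ⟨hv, l, h1, gen_and G (fun y _ h3 h4 h5 => h4 (h3 h5)) h2 h⟩

theorem hs_inter (G : PG X F) {n m : ℕ} {x y : X} (h : y ∈ Hs G n x) (h' : y ∈ Hs G m x) :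
    ∃ k, y ∈ Hs G k x ∧ Hs G k x ⊆ Hs G n x ∩ Hs G m x := by
  obtain ⟨hy, l, h1, h2⟩ := h
  obtain ⟨-, l', h3, h4⟩ := h'
  obtain ⟨k, hk⟩ := dec_surj (l ++ l')
  refine ⟨k, bl_hs G hy ?_, fun v hv => ⟨hs_sub G ?_ hv, hs_sub G ?_ hv⟩⟩
  · rw [hk]; exact (bl_append G l l' x y).2 ⟨h1, h3⟩
  · rw [hk]; exact gen_mono G (fun z _ h5 h6 => h5 ((bl_append G l l' x z).1 h6).1) h2
  · rw [hk]; exact gen_mono G (fun z _ h5 h6 => h5 ((bl_append G l l' x z).1 h6).2) h4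

theorem hs_change (hE : Equivalence F) (G : PG X F) {x x' y : X} {n : ℕ} (h : F x x') (hy : y ∈ Hs G n x) :
    ∃ k, y ∈ Hs G k x' ∧ Hs G k x' ⊆ Hs G n x := by
  obtain ⟨hX, l, h1, h2⟩ := hy
  obtain ⟨l', h3, h4⟩ := bl_change hE G h h1
  obtain ⟨k, hk⟩ := dec_surj l'
  refine ⟨k, bl_hs G hX (by rw [hk]; exact h3), ?_⟩
  rintro v ⟨hv, l'', h5, h6⟩
  obtain ⟨l3, h7, h8⟩ := bl_change hE G (hE.symm h) h5
  refine ⟨hv, l3, h7, ?_⟩
  have h9 := G.inv x' x _ (hE.symm h) h6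
  rw [hk] at h9
  exact gen_and G (fun z _ h10 h11 h12 => h11 (h4 (h10 (h8 h12)))) h9 h2

section

variable [StandardBorelSpace X] (hE : Equivalence F) (hF : MeasurableSet {p : X × X | F p.1 p.2})

include hE hF

theorem hs_baire (G : PG X F) {n : ℕ} {x y : X} (h : y ∈ Hs G n x) : ¬ G.gen x fun z => z ∉ Hs G n x := by
  intro h0
  obtain ⟨hy, l, h1, h2⟩ := h
  refine xs_pos hE G hy h1.1 h1 ?_
  refine gen_and G (fun z _ h3 h4 h5 => h3 ⟨h4, l, h5, h2⟩) h0 (xs_gen hE hF G x)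

/-- from a nonmeager Borel set -/
theorem hs_ex (G : PG X F) {x : X} {A : Set X} (hA : MeasurableSet A) (h : ¬ G.gen x fun z => z ∈ Xs G → z ∉ A) :
    ∃ k z, z ∈ Hs G k x ∧ z ∈ A ∧ G.gen x fun z => z ∈ Hs G k x → z ∈ A := by
  by_contra hc
  push Not at hc
  refine h (gen_mono G (fun z _ h1 hz hzA => ?_) (bl_bp hE hF G x A hA))
  obtain ⟨l, h2, h3⟩ := h1 hzA
  obtain ⟨k, rfl⟩ := dec_surj l
  exact hc k z (bl_hs G hz h2) hzA (gen_and G (fun z _ h4 h5 h6 => h5 (h4 h6)) (hs_ae G k x) h3)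

theorem hs_regular (G : PG X F) {n m : ℕ} {x : X}
    (h : ∀ k z, z ∈ Hs G k x → Hs G k x ⊆ Hs G m x → ∃ w ∈ Hs G k x, w ∈ Hs G n x) :
    Hs G m x ⊆ Hs G n x := by
  apply hs_sub
  by_contra h0
  have hA : MeasurableSet {z | z ∈ Bl G (dec m) x ∧ z ∉ Bl G (dec n) x} :=
    (measurable_prodMk_left (mBl hF G (dec m))).inter (measurable_prodMk_left (mBl hF G (dec n))).compl
  obtain ⟨k, z, h1, h2, h3⟩ := hs_ex hE hF G hA fun h1 => h0 (gen_and G (fun z _ h2 h3 h4 => by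
    by_contra h5; exact h2 h3 ⟨h4, h5⟩) h1 (xs_gen hE hF G x))
  obtain ⟨j, h4, h5⟩ := hs_inter G h1 (bl_hs G h1.1 h2.1)
  obtain ⟨w, h6, h7⟩ := h j z h4 fun v hv => (h5 hv).2
  obtain ⟨i, h8, h9⟩ := hs_inter G h6 h7
  refine hs_baire hE hF G h8 (gen_and G (fun v _ h10 h11 h12 => ?_) h3 (hs_ae G n x))
  exact (h10 (h5 (h9 h12).1).1).2 (h11 (h9 h12).2)

theorem hs_openDense (G : PG X F) {x : X} {N : Set ℕ}
    (h : ∀ m y, y ∈ Hs G m x → ∃ n ∈ N, ∃ z, z ∈ Hs G m x ∧ z ∈ Hs G n x) :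
    G.gen x fun z => z ∈ Xs G → ∃ n ∈ N, z ∈ Hs G n x := by
  have hA : MeasurableSet {z | ¬ ∃ n ∈ N, z ∈ Hs G n x} := by
    have e : {z | ¬ ∃ n ∈ N, z ∈ Hs G n x} = (⋃ n, ⋃ (_ : n ∈ N), {z | z ∈ Hs G n x})ᶜ := by
      ext z; simp
    rw [e]
    exact (MeasurableSet.iUnion fun n => MeasurableSet.iUnion fun _ => measurable_prodMk_left (mHs hF G n)).compl
  by_contra h0
  obtain ⟨k, z, h1, h2, h3⟩ := hs_ex hE hF G hA fun h1 => h0 (gen_mono G (fun z _ h2 h3 => by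
    by_contra h5; exact h2 h3 h5) h1)
  obtain ⟨n, hn, w, h4, h5⟩ := h k z h1
  obtain ⟨j, h6, h7⟩ := hs_inter G h4 h5
  exact hs_baire hE hF G h6 (gen_mono G (fun v _ h8 h9 => h8 (h7 h9).1 ⟨n, hn, (h7 h9).2⟩) h3)

end

end Pool.Agent.H56.MG
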