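import Pool.Agent.H56.MG.Str
set_option autoImplicit false

/-!
# H56/MG/StrB: the abstract category structure on `Xs`
-/

namespace Pool.Agent.H56.MG

open Set Topology TopologicalSpace Pool.Agent.H93.EO

variable {X : Type} [MeasurableSpace X] {F : X → X → Prop}

/-- Borel choice of points of the basic sets -/
theorem exists_ds [StandardBorelSpace X] (hE : Equivalence F) (hF : MeasurableSet {p : X × X | F p.1 p.2})
    (G : PG X F) (k : ℕ) : ∃ s : {x : X // x ∈ Xs G} → {x : X // x ∈ Xs G}, Measurable s ∧ (∀ x, F x.1 (s x).1) ∧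
      ∀ x y, y ∈ Xs G → y ∈ Bl G (dec k) x.1 → (s x).1 ∈ Bl G (dec k) x.1 := by
  classical
  have hB : MeasurableSet {p : X × X | p.2 ∈ Xs G ∧ p.2 ∈ Bl G (dec k) p.1} :=
    (measurable_snd (mXs hF G)).inter (mBl hF G (dec k))
  obtain ⟨s, hs, h1⟩ := G.sel _ hB
  refine ⟨fun x => if h : s x.1 ∈ Xs G ∧ s x.1 ∈ Bl G (dec k) x.1 then ⟨s x.1, h.1⟩ else x, ?_, fun x => ?_, ?_⟩
  · have h2 : Measurable fun x : {x : X // x ∈ Xs G} =>
        if s x.1 ∈ Xs G ∧ s x.1 ∈ Bl G (dec k) x.1 then s x.1 else x.1 := by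
      refine Measurable.ite ?_ (hs.comp measurable_subtype_coe) measurable_subtype_coe
      exact (measurable_subtype_coe.prodMk (hs.comp measurable_subtype_coe)) hB
    refine (MeasurableEmbedding.subtype_coe (mXs hF G)).measurable_comp_iff.1 ?_
    convert h2 using 2 with x
    simp only [Function.comp]
    split_ifs <;> rfl
  · dsimp only
    split_ifs with h
    · exact h.2.1
    · exact hE.refl x.1
  · intro x y hy hyx
    have h3 : s x.1 ∈ Xs G ∧ s x.1 ∈ Bl G (dec k) x.1 := by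
      apply h1 x.1
      intro h4
      exact xs_pos hE G hy hyx.1 hyx (gen_and G (fun z _ h5 h6 h7 => h5 ⟨h6, h7⟩) h4 (xs_gen hE hF G x.1))
    dsimp only
    rw [dif_pos h3]
    exact h3.2

theorem str_cq [StandardBorelSpace X] (hF : MeasurableSet {p : X × X | F p.1 p.2})
    (G : PG X F) (P : Type) [MeasurableSpace P] [StandardBorelSpace P] (π : P → {x : X // x ∈ Xs G})
    (hπ : Measurable π) (A : P → {x : X // x ∈ Xs G} → Prop)
    (hA : MeasurableSet {q : P × {x : X // x ∈ Xs G} | A q.1 q.2}) :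
    MeasurableSet {p : P | G.gen (π p).1 fun y => ∀ h : y ∈ Xs G, A p ⟨y, h⟩} := by
  have hS : StandardBorelSpace {x : X // x ∈ Xs G} := (mXs hF G).standardBorel
  refine G.cq P (fun p => (π p).1) (measurable_subtype_coe.comp hπ) (fun p y => ∀ h : y ∈ Xs G, A p ⟨y, h⟩) ?_
  have h1 : MeasurableSet ((fun q : P × {x : X // x ∈ Xs G} => (q.1, q.2.1)) '' {q | A q.1 q.2}) := by
    refine hA.image_of_measurable_injOn (measurable_fst.prodMk (measurable_subtype_coe.comp measurable_snd)) ?_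
    rintro ⟨p, y⟩ - ⟨p', y'⟩ - h
    have h2 : p = p' := congrArg Prod.fst h
    have h3 : y.1 = y'.1 := congrArg Prod.snd h
    exact Prod.ext h2 (Subtype.ext h3)
  have h2 : {q : P × X | ∀ h : q.2 ∈ Xs G, A q.1 ⟨q.2, h⟩} =
      {q : P × X | q.2 ∉ Xs G} ∪ ((fun q : P × {x : X // x ∈ Xs G} => (q.1, q.2.1)) '' {q | A q.1 q.2}) := by
    ext ⟨p, y⟩
    constructor
    · intro h
      by_cases hy : y ∈ Xs G
      · exact Or.inr ⟨(p, ⟨y, hy⟩), h hy, rfl⟩
      · exact Or.inl hy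
    · rintro (h | ⟨⟨p', y'⟩, h, h'⟩) hy
      · exact absurd hy h
      · have h2 : p' = p := congrArg Prod.fst h'
        have h3 : y'.1 = y := congrArg Prod.snd h'
        subst h2
        subst h3
        exact h
  rw [h2]
  exact (measurable_snd (mXs hF G)).compl.union h1

/-- the structure -/
noncomputable def str [StandardBorelSpace X] (hE : Equivalence F) (hF : MeasurableSet {p : X × X | F p.1 p.2})
    (G : PG X F) : GenStr {x : X // x ∈ Xs G} fun x y => F x.1 y.1 where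
  H k x := {w | w.1 ∈ Hs G k x.1}
  e k := (exists_ds hE hF G k).choose
  gen x P := G.gen x.1 fun y => ∀ h : y ∈ Xs G, P ⟨y, h⟩
  sub _ _ _ h := hs_F G h
  cover x y h := by
    obtain ⟨k, hk⟩ := dec_surj []
    exact ⟨k, bl_hs G y.2 (by rw [hk]; exact ⟨h, fun p hp => absurd hp List.not_mem_nil⟩)⟩
  inter x y n m h h' := by
    obtain ⟨k, h1, h2⟩ := hs_inter G h h'
    exact ⟨k, h1, fun v hv => h2 hv⟩
  change x x' y n h h' := by
    obtain ⟨k, h1, h2⟩ := hs_change hE G h h'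
    exact ⟨k, h1, fun v hv => h2 hv⟩
  eF i x := (exists_ds hE hF G i).choose_spec.2.1 x
  dense n x y h := by
    obtain ⟨hy, l, h1, h2⟩ := h
    obtain ⟨i, rfl⟩ := dec_surj l
    have h3 := (exists_ds hE hF G i).choose_spec.2.2 x y.1 y.2 h1
    exact ⟨i, ((exists_ds hE hF G i).choose x).2, dec i, h3, h2⟩
  regular n m x h := by
    have h1 : Hs G m x.1 ⊆ Hs G n x.1 := by
      refine hs_regular hE hF G fun k z hz hk => ?_
      obtain ⟨w, hw, hw'⟩ := h k ⟨z, hz.1⟩ hz fun v hv => hk hv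
      exact ⟨w.1, hw, hw'⟩
    exact fun v hv => h1 hv
  mono x P Q h hP := gen_mono G (fun y hy h1 h2 => h ⟨y, h2⟩ hy (h1 h2)) hP
  nat x P h := gen_mono G (fun y _ h1 h2 n => h1 n h2) (G.nat x.1 _ h)
  inv x x' P h hP := G.inv x.1 x'.1 _ h hP
  baire x n y h h0 := hs_baire hE hF G h
    (gen_and G (fun z _ h1 h2 => h1 h2) h0 (xs_gen hE hF G x.1))
  openDense x N h := by
    refine gen_mono G (fun z _ h1 h2 => h1 h2) (hs_openDense hE hF G (N := N) fun m y hy => ?_)
    obtain ⟨n, hn, z, h1, h2⟩ := h m ⟨y, hy.1⟩ hy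
    exact ⟨n, hn, z.1, h1, h2⟩
  bp x A hA := by
    have h1 : MeasurableSet (Subtype.val '' A) := (MeasurableEmbedding.subtype_coe (mXs hF G)).measurableSet_image' hA
    refine gen_mono G (fun y _ h2 hy hyA => ?_) (bl_bp hE hF G x.1 _ h1)
    obtain ⟨l, h3, h4⟩ := h2 ⟨⟨y, hy⟩, hyA, rfl⟩
    obtain ⟨k, rfl⟩ := dec_surj l
    refine ⟨k, bl_hs G hy h3, gen_and G (fun z _ h5 h6 hz h7 => ?_) (hs_ae G k x.1) h4⟩
    obtain ⟨z', h8, h9⟩ := h6 (h5 h7)
    have h10 : z' = ⟨z, hz⟩ := Subtype.ext h9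
    rw [← h10]; exact h8
  mH n := (measurable_subtype_coe.comp measurable_fst |>.prodMk (measurable_subtype_coe.comp measurable_snd))
    (mHs hF G n)
  me i := (exists_ds hE hF G i).choose_spec.1
  cq P _ _ π hπ A hA := str_cq hF G P π hπ A hA

end Pool.Agent.H56.MG
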